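import Mathlib
import Pool.Agent.H88R3.EF
import Pool.Agent.H88R3.PkgE
import Pool.Agent.H88R3.Asm3

set_option autoImplicit false

/-!
# The logical depth of graphs is not computable

The definitions (`qd`, `Sat`, `Defines`, `D`, `adjMat`) are in `Pool/Agent/H88R3/EF.lean`.
No partial recursive function gives the logical depth `D G` from the adjacency matrix of every
finite nonempty graph `G`.
-/

theorem Pool.Agent.Results.MP_e427d9_lc.DepthNotComputable.result :
    ¬ ∃ f : List (List Bool) →. ℕ, Partrec f ∧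
      ∀ (n : ℕ), 0 < n → ∀ G : SimpleGraph (Fin n),
        Pool.Agent.H88R3.D G ∈ f (Pool.Agent.H88R3.adjMat G) := by
  rintro ⟨f, hf, hD⟩
  obtain ⟨c, hc, hc1, hc2⟩ := Pool.Agent.H88R3.canon
  have h : ∀ A, ∃ k, k ∈ f (c A) := by
    intro A
    obtain ⟨n, hn, G, hG⟩ := hc2 A
    rw [hG]
    exact ⟨_, hD n hn G⟩
  choose F hF using h
  refine Pool.Agent.H88R3.depth_not_computable ⟨F, ?_, ?_⟩
  · exact (hf.comp hc.to_comp).of_eq fun A => Part.eq_some_iff.2 (hF A)
  · intro n hn G
    have h1 := hF (Pool.Agent.H88R3.adjMat G)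
    rw [hc1 n hn G] at h1
    exact Part.mem_unique h1 (hD n hn G)
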